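import Pool.Agent.H79.BN.Targets
import Pool.Agent.H93.BL.Basic
import Pool.Agent.H67.BL.G4
import Pool.Agent.H26.BL.B1

/-!
# (W5) a ray which stays in an uncut strip hits the same side as the strip
-/

set_option autoImplicit false

namespace Pool.Agent.H47.BN

open MeasureTheory Set Filter Topology Pool.Agent.H93.BL Pool.Agent.H79.BN

theorem eq_zero_of_cr {a b D : ℂ} (h1 : cr a D = 0) (h2 : cr b D = 0) (h : cr a b ≠ 0) :
    D = 0 := by
  unfold cr at h1 h2 h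
  apply Complex.ext
  · have : D.re * (a.re * b.im - a.im * b.re) = 0 := by
      linear_combination b.re * h1 - a.re * h2
    rcases mul_eq_zero.1 this with h3 | h3
    · exact h3
    · exact absurd h3 h
  · have : D.im * (a.re * b.im - a.im * b.re) = 0 := by
      linear_combination b.im * h1 - a.im * h2
    rcases mul_eq_zero.1 this with h3 | h3
    · exact h3
    · exact absurd h3 h

section

variable {ι : Type} (P : Polygon ι)

theorem ip_open {k : ι} {x : ℂ} (hx : x ∈ openSegment ℝ (P.p k) (P.q k)) :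
    ip (x - P.p k) (P.n k) = 0 := by
  obtain ⟨s, -, -, rfl⟩ := (P.mem_openSegment_iff k x).1 hx
  rw [add_sub_cancel_left, ip_smul_left, P.ip_u_n, mul_zero]

/-- the rays of the strip -/
theorem strip_hit {j k : ι} {r φ : ℝ} {z : ι × ℝ × ℝ} (h : P.Step (j, r, φ) z) (hk : z.1 = k) :
    ∃ t, P.Hit (P.pos (j, r, φ)) (P.dir (j, r, φ)) k t := by
  have h1 := ((Pool.Agent.H26.BL.B1.b1 ι P (j, r, φ) z).2.2.1 h).2.2
  obtain ⟨-, t, ht, -, -⟩ := h1
  exact ⟨t, by rw [← hk]; exact ht⟩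

/-- a point of the strip -/
theorem claimR {j k : ι} {r0 φ h : ℝ} (hc : 0 < Real.cos φ)
    (hstrip : ∀ r, |(r - r0) * Real.cos φ| < h → ∃ z, P.Step (j, r, φ) z ∧ z.1 = k)
    {y : ℂ} (hy : |cr (P.dir (j, r0, φ)) (y - P.pos (j, r0, φ))| < h)
    (hy1 : 0 < ip (y - P.p j) (P.n j)) :
    (0 < ip (y - P.p k) (P.n k) → y ∈ P.Ω) ∧
      (ip (y - P.p k) (P.n k) = 0 → y ∈ openSegment ℝ (P.p k) (P.q k)) := by
  obtain ⟨v, hv⟩ : ∃ v, v = P.dir (j, r0, φ) := ⟨_, rfl⟩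
  have hip : ip v (P.n j) = Real.cos φ := by
    rw [hv]
    exact P.ip_dir_n (j, r0, φ)
  obtain ⟨ψ, hψ⟩ : ∃ ψ, ψ = cr v (y - P.pos (j, r0, φ)) := ⟨_, rfl⟩
  rw [← hv, ← hψ] at hy
  obtain ⟨r, hr⟩ : ∃ r, r = r0 - ψ / Real.cos φ := ⟨_, rfl⟩
  obtain ⟨σ, hσ⟩ : ∃ σ, σ = ip (y - P.p j) (P.n j) / Real.cos φ := ⟨_, rfl⟩
  have hσ0 : 0 < σ := by
    rw [hσ]
    exact div_pos hy1 hc
  have hrc : (r - r0) * Real.cos φ = -ψ := by
    rw [hr]
    field_simp
    ring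
  obtain ⟨z, hz, hzk⟩ := hstrip r (by rw [hrc, abs_neg]; exact hy)
  obtain ⟨t, ht0, htΩ, hts, htn⟩ := strip_hit P hz hzk
  have hdir : P.dir (j, r, φ) = v := by
    rw [hv]
    rfl
  rw [hdir] at htΩ hts htn
  have hpos : P.pos (j, r, φ) = P.p j + (r : ℂ) * P.u j := rfl
  have hpos0 : P.pos (j, r0, φ) = P.p j + (r0 : ℂ) * P.u j := rfl
  have hyeq : y = P.pos (j, r, φ) + (σ : ℂ) * v := by
    have hD : y - (P.pos (j, r, φ) + (σ : ℂ) * v) = 0 := by
      refine eq_zero_of_cr (a := P.u j) (b := v) ?_ ?_ ?_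
      · rw [← P.ip_n, hpos, show y - (P.p j + (r : ℂ) * P.u j + (σ : ℂ) * v) =
          (y - P.p j) - (r : ℂ) * P.u j - (σ : ℂ) * v by ring, ip_sub_left, ip_sub_left,
          ip_smul_left, ip_smul_left, P.ip_u_n, hip, hσ]
        field_simp
        ring
      · rw [hpos, show y - (P.p j + (r : ℂ) * P.u j + (σ : ℂ) * v) =
          (y - P.pos (j, r0, φ)) - ((r - r0 : ℝ) : ℂ) * P.u j - (σ : ℂ) * v by
            rw [hpos0]; push_cast; ring, cr_sub_right, cr_sub_right, cr_smul_right,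
          cr_smul_right, cr_self, ← hψ, P.cr_u, hip]
        linear_combination hrc
      · rw [← P.ip_n, hip]
        exact hc.ne'
    exact sub_eq_zero.1 hD
  have hk : ip (y - P.p k) (P.n k) = (σ - t) * ip v (P.n k) := by
    have h3 := ip_open P hts
    rw [hyeq, show P.pos (j, r, φ) + (σ : ℂ) * v - P.p k =
      (P.pos (j, r, φ) + (t : ℂ) * v - P.p k) + ((σ - t : ℝ) : ℂ) * v by push_cast; ring,
      ip_add_left, h3, ip_smul_left, zero_add]
  constructor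
  · intro h4
    rw [hk] at h4
    have h5 : σ < t := by
      by_contra h6
      rw [not_lt] at h6
      nlinarith
    rw [hyeq]
    exact htΩ σ ⟨hσ0, h5⟩
  · intro h4
    rw [hk] at h4
    rcases mul_eq_zero.1 h4 with h5 | h5
    · have h6 : σ = t := by linarith
      rw [hyeq, h6]
      exact hts
    · exact absurd h5 htn.ne

end

theorem w5 : T_W5 := by
  intro ι _ P j k r0 φ h z' z'' hph hh hstrip hz' hstep hψ' hψ''
  have hc : 0 < Real.cos φ := P.cos_pos_of_phase (z := (j, r0, φ)) hph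
  obtain ⟨v, hv⟩ : ∃ v, v = P.dir (j, r0, φ) := ⟨_, rfl⟩
  obtain ⟨v', hv'⟩ : ∃ v', v' = P.dir z' := ⟨_, rfl⟩
  have hB := (Pool.Agent.H26.BL.B1.b1 ι P z' z'').2.2.1 hstep
  obtain ⟨hph', hph'', -, t', hhit, hpos'', -⟩ := hB
  change P.pos z'' = P.pos z' + (t' : ℂ) * P.dir z' at hpos''
  change P.Hit (P.pos z') (P.dir z') z''.1 t' at hhit
  rw [← hv'] at hpos'' hhit
  have hip' : 0 < ip v' (P.n j) := by
    rw [hv', ← hz', P.ip_dir_n]
    exact P.cos_pos_of_phase hph'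
  have hpz : P.pos z' = P.p j + (z'.2.1 : ℂ) * P.u j := by
    rw [← hz']
    rfl
  have ht' : 0 < t' := hhit.1
  -- the transversal coordinate
  have hψ : ∀ τ : ℝ, 0 ≤ τ → τ ≤ t' →
      |cr (P.dir (j, r0, φ)) (P.pos z' + (τ : ℂ) * v' - P.pos (j, r0, φ))| < h := by
    intro τ h1 h2
    rw [hpos''] at hψ''
    rw [← hv] at hψ' hψ'' ⊢
    have e1 : cr v (P.pos z' + (τ : ℂ) * v' - P.pos (j, r0, φ)) =
        cr v (P.pos z' - P.pos (j, r0, φ)) + τ * cr v v' := by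
      rw [show P.pos z' + (τ : ℂ) * v' - P.pos (j, r0, φ) =
        (P.pos z' - P.pos (j, r0, φ)) + (τ : ℂ) * v' by ring, cr_add_right, cr_smul_right]
    have e2 : cr v (P.pos z' + (t' : ℂ) * v' - P.pos (j, r0, φ)) =
        cr v (P.pos z' - P.pos (j, r0, φ)) + t' * cr v v' := by
      rw [show P.pos z' + (t' : ℂ) * v' - P.pos (j, r0, φ) =
        (P.pos z' - P.pos (j, r0, φ)) + (t' : ℂ) * v' by ring, cr_add_right, cr_smul_right]
    rw [e2] at hψ''
    rw [e1]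
    generalize cr v (P.pos z' - P.pos (j, r0, φ)) = A at hψ' hψ'' ⊢
    generalize cr v v' = B at hψ'' ⊢
    rw [abs_lt] at hψ' hψ'' ⊢
    rcases le_total 0 B with hB | hB
    · have h3 : 0 ≤ τ * B := mul_nonneg h1 hB
      have h4 : τ * B ≤ t' * B := mul_le_mul_of_nonneg_right h2 hB
      constructor <;> linarith [hψ'.1, hψ''.2]
    · have h3 : τ * B ≤ 0 := mul_nonpos_of_nonneg_of_nonpos h1 hB
      have h4 : t' * B ≤ τ * B := mul_le_mul_of_nonpos_right h2 hB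
      constructor <;> linarith [hψ'.2, hψ''.1]
  have hf1 : ∀ τ : ℝ, 0 < τ → 0 < ip (P.pos z' + (τ : ℂ) * v' - P.p j) (P.n j) := by
    intro τ h1
    rw [hpz, show P.p j + (z'.2.1 : ℂ) * P.u j + (τ : ℂ) * v' - P.p j =
      (z'.2.1 : ℂ) * P.u j + (τ : ℂ) * v' by ring, ip_add_left, ip_smul_left, ip_smul_left,
      P.ip_u_n, mul_zero, zero_add]
    exact mul_pos h1 hip'
  have hf2 : ∀ τ : ℝ, ip (P.pos z' + (τ : ℂ) * v' - P.p k) (P.n k) =
      ip (P.pos z' - P.p k) (P.n k) + τ * ip v' (P.n k) := by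
    intro τ
    rw [show P.pos z' + (τ : ℂ) * v' - P.p k = (P.pos z' - P.p k) + (τ : ℂ) * v' by ring,
      ip_add_left, ip_smul_left]
  have hf20 : 0 < ip (P.pos z' - P.p k) (P.n k) := by
    have h0 := hψ'
    have e1 : cr (P.dir (j, r0, φ)) (P.pos z' - P.pos (j, r0, φ)) =
        -((z'.2.1 - r0) * Real.cos φ) := by
      rw [hpz, show P.p j + (z'.2.1 : ℂ) * P.u j - P.pos (j, r0, φ) =
        ((z'.2.1 - r0 : ℝ) : ℂ) * P.u j by
          change _ - (P.p j + (r0 : ℂ) * P.u j) = _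
          push_cast
          ring, cr_smul_right, P.cr_u, P.ip_dir_n (j, r0, φ)]
      ring
    rw [e1, abs_neg] at h0
    obtain ⟨z, hz, hzk⟩ := hstrip _ h0
    obtain ⟨t, ht0, -, hts, htn⟩ := strip_hit P hz hzk
    have h3 := ip_open P hts
    have e2 : P.pos (j, z'.2.1, φ) = P.pos z' := by
      rw [hpz]
      rfl
    rw [e2, show P.pos z' + (t : ℂ) * P.dir (j, z'.2.1, φ) - P.p k =
      (P.pos z' - P.p k) + (t : ℂ) * P.dir (j, z'.2.1, φ) by ring, ip_add_left,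
      ip_smul_left] at h3
    nlinarith [mul_neg_of_pos_of_neg ht0 htn]
  -- the end point is not in the table
  have hout : P.pos z' + (t' : ℂ) * v' ∉ P.Ω :=
    Pool.Agent.H67.BL.G4.not_mem_of_segment P z''.1 _ (openSegment_subset_segment _ _ _ hhit.2.2.1)
  have hend : ip (P.pos z' + (t' : ℂ) * v' - P.p k) (P.n k) ≤ 0 := by
    by_contra hcon
    rw [not_le] at hcon
    exact hout ((claimR P hc hstrip (hψ t' ht'.le le_rfl) (hf1 t' ht')).1 hcon)
  rw [hf2] at hend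
  obtain ⟨a, ha⟩ : ∃ a, a = ip (P.pos z' - P.p k) (P.n k) := ⟨_, rfl⟩
  obtain ⟨b, hb⟩ : ∃ b, b = ip v' (P.n k) := ⟨_, rfl⟩
  rw [← ha, ← hb] at hend
  rw [← ha] at hf20
  have hb0 : b < 0 := by
    by_contra hcon
    rw [not_lt] at hcon
    nlinarith [mul_nonneg ht'.le hcon]
  obtain ⟨τ, hτ⟩ : ∃ τ, τ = a / (-b) := ⟨_, rfl⟩
  have hτ0 : 0 < τ := by
    rw [hτ]
    exact div_pos hf20 (by linarith)
  have hτb : a + τ * b = 0 := by
    rw [hτ, div_neg, neg_mul, div_mul_cancel₀ _ hb0.ne, add_neg_cancel]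
  have hτt : τ ≤ t' := by
    rw [hτ, div_le_iff₀ (by linarith)]
    linarith
  have hhit2 : P.Hit (P.pos z') v' k τ := by
    refine ⟨hτ0, fun r hr => ?_, ?_, ?_⟩
    · refine (claimR P hc hstrip (hψ r hr.1.le (hr.2.le.trans hτt)) (hf1 r hr.1)).1 ?_
      rw [hf2, ← ha, ← hb]
      nlinarith [hr.2]
    · refine (claimR P hc hstrip (hψ τ hτ0.le hτt) (hf1 τ hτ0)).2 ?_
      rw [hf2, ← ha, ← hb]
      exact hτb
    · rw [← hb]
      exact hb0
  exact ((Pool.Agent.H67.BL.G4.g4 ι P (P.pos z') v').1 _ _ _ _ hhit hhit2).2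

end Pool.Agent.H47.BN
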